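import Mathlib

/-!
# Countable abelian groups with many homomorphisms to the integers

If every finite subset of a countable abelian group `G` is annihilated by a nonzero homomorphism
`G → ℤ`, then a free abelian group of infinite rank is a direct summand of `G`.
-/

set_option autoImplicit false

namespace Pool.Agent.CQZ

variable {G : Type*} [AddCommGroup G]

/-- Division by a common divisor. -/
theorem exists_onto (ψ : G →+ ℤ) (hψ : ψ ≠ 0) :
    ∃ θ : G →+ ℤ, (∃ g, θ g = 1) ∧ ∀ x, ψ x = 0 → θ x = 0 := by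
  obtain ⟨d, hd⟩ := Int.subgroup_cyclic ψ.range
  have hmem : ∀ x, ∃ z : ℤ, ψ x = z * d := by
    intro x
    have h1 : ψ x ∈ ψ.range := ⟨x, rfl⟩
    rw [hd, AddSubgroup.mem_closure_singleton] at h1
    obtain ⟨z, hz⟩ := h1
    exact ⟨z, by rw [← hz, smul_eq_mul]⟩
  have hd0 : d ≠ 0 := by
    rintro rfl
    apply hψ
    ext x
    obtain ⟨z, hz⟩ := hmem x
    simpa using hz
  choose q hq using hmem
  refine ⟨{ toFun := q, map_zero' := ?_, map_add' := fun x y => ?_ }, ?_, fun x hx => ?_⟩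
  · have := hq 0
    rw [map_zero] at this
    rcases mul_eq_zero.mp this.symm with h | h
    · exact h
    · exact absurd h hd0
  · have h1 := hq (x + y)
    rw [map_add, hq x, hq y, ← add_mul] at h1
    exact (mul_right_cancel₀ hd0 h1).symm
  · have h1 : d ∈ ψ.range := by
      rw [hd]
      exact AddSubgroup.mem_closure_singleton_self d
    obtain ⟨g, hg⟩ := h1
    refine ⟨g, ?_⟩
    have h2 := hq g
    rw [hg] at h2
    have h3 : (1 : ℤ) * d = q g * d := by rw [one_mul]; exact h2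
    exact (mul_right_cancel₀ hd0 h3).symm
  · have h1 := hq x
    rw [hx] at h1
    rcases mul_eq_zero.mp h1.symm with h | h
    · exact h
    · exact absurd h hd0

/-- The splitting of a surjection onto a free abelian group. -/
theorem exists_equiv (Ψ : G →+ (ℕ →₀ ℤ)) (hΨ : Function.Surjective Ψ) :
    Nonempty (G ≃+ (ℕ →₀ ℤ) × Ψ.ker) := by
  choose s0 hs0 using fun n : ℕ => hΨ (Finsupp.single n 1)
  let s : (ℕ →₀ ℤ) →+ G := Finsupp.liftAddHom fun n => (zmultiplesHom G) (s0 n)
  have hs : ∀ a, Ψ (s a) = a := by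
    intro a
    have h : Ψ.comp s = AddMonoidHom.id _ := by
      ext n : 2
      simp [s, hs0]
    exact DFunLike.congr_fun h a
  refine ⟨{ toFun := fun x => (Ψ x, ⟨x - s (Ψ x), ?_⟩)
            invFun := fun p => s p.1 + p.2
            left_inv := fun x => ?_
            right_inv := fun p => ?_
            map_add' := fun x y => ?_ }⟩
  · rw [AddMonoidHom.mem_ker, map_sub, hs, sub_self]
  · simp
  · obtain ⟨a, b, hb⟩ := p
    rw [AddMonoidHom.mem_ker] at hb
    ext1
    · simp [hs, hb]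
    · apply Subtype.ext
      simp [hs, hb]
  · ext1
    · simp
    · apply Subtype.ext
      simp only [map_add, Prod.snd_add, AddSubgroup.coe_add]
      abel

/-- If every finite set is annihilated by a nonzero homomorphism to `ℤ`, the countable group maps
onto a free abelian group of infinite rank. -/
theorem exists_surj [Countable G]
    (h : ∀ F : Finset G, ∃ ψ : G →+ ℤ, ψ ≠ 0 ∧ ∀ x ∈ F, ψ x = 0) :
    ∃ Ψ : G →+ (ℕ →₀ ℤ), Function.Surjective Ψ := by
  classical
  have h1 : ∀ F : Finset G, ∃ p : (G →+ ℤ) × G, p.1 p.2 = 1 ∧ ∀ x ∈ F, p.1 x = 0 := by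
    intro F
    obtain ⟨ψ, h0, hF⟩ := h F
    obtain ⟨θ, ⟨g, hg⟩, hθ⟩ := exists_onto ψ h0
    exact ⟨(θ, g), hg, fun x hx => hθ x (hF x hx)⟩
  choose c hc1 hc0 using h1
  obtain ⟨e, he⟩ := exists_surjective_nat G
  let F : ℕ → Finset G := fun n => Nat.rec ∅ (fun n F => insert (e n) (insert (c F).2 F)) n
  have hF : ∀ n, F (n + 1) = insert (e n) (insert (c (F n)).2 (F n)) := fun n => rfl
  have hmono : Monotone F := monotone_nat_of_le_succ fun n => by
    rw [hF]
    exact (Finset.subset_insert _ _).trans (Finset.subset_insert _ _)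
  let ψ : ℕ → G →+ ℤ := fun n => (c (F n)).1
  let g : ℕ → G := fun n => (c (F n)).2
  have hψg : ∀ n, ψ n (g n) = 1 := fun n => hc1 (F n)
  have hψ0 : ∀ m n, m < n → ψ n (g m) = 0 := fun m n hmn => by
    refine hc0 (F n) _ (hmono (Nat.succ_le_of_lt hmn) ?_)
    rw [Nat.succ_eq_add_one, hF]
    exact Finset.mem_insert_of_mem (Finset.mem_insert_self _ _)
  have hψe : ∀ m n, m < n → ψ n (e m) = 0 := fun m n hmn => by
    refine hc0 (F n) _ (hmono (Nat.succ_le_of_lt hmn) ?_)
    rw [Nat.succ_eq_add_one, hF]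
    exact Finset.mem_insert_self _ _
  have hfin : ∀ x, {n | ψ n x ≠ 0}.Finite := by
    intro x
    obtain ⟨m, rfl⟩ := he x
    refine (Set.finite_Iic m).subset (fun n hn => ?_)
    rw [Set.mem_Iic]
    by_contra hlt
    exact hn (hψe m n (not_le.mp hlt))
  let Ψ : G →+ (ℕ →₀ ℤ) :=
    { toFun := fun x => Finsupp.ofSupportFinite (fun n => ψ n x) (hfin x)
      map_zero' := by
        ext n
        exact map_zero (ψ n)
      map_add' := fun x y => by
        ext n
        exact map_add (ψ n) x y }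
  have hΨ : ∀ x n, Ψ x n = ψ n x := fun x n => rfl
  refine ⟨Ψ, ?_⟩
  have hsing : ∀ m, Finsupp.single m (1 : ℤ) ∈ Ψ.range := by
    intro m
    induction m using Nat.strong_induction_on with
    | _ m ih =>
      have e1 : Finsupp.single m (1 : ℤ)
          = Ψ (g m) - ∑ n ∈ Finset.range m, ψ n (g m) • Finsupp.single n (1 : ℤ) := by
        ext k
        rw [Finsupp.sub_apply, hΨ, Finsupp.finsetSum_apply]
        simp only [Finsupp.smul_apply, Finsupp.single_apply, smul_eq_mul, mul_ite, mul_one,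
          mul_zero, Finset.sum_ite_eq', Finset.mem_range]
        rcases lt_trichotomy k m with hk | hk | hk
        · rw [if_neg hk.ne', if_pos hk, sub_self]
        · subst hk
          rw [if_pos rfl, if_neg (lt_irrefl _), hψg, sub_zero]
        · rw [if_neg hk.ne, if_neg (not_lt.mpr hk.le), hψ0 m k hk, sub_zero]
      rw [e1]
      refine sub_mem ⟨g m, rfl⟩ (sum_mem fun n hn => ?_)
      exact zsmul_mem (ih n (Finset.mem_range.mp hn)) _
  intro a
  have ha : a ∈ Ψ.range := by
    induction a using Finsupp.induction_linear with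
    | zero => exact zero_mem _
    | add f g hf hg => exact add_mem hf hg
    | single n z =>
      have : Finsupp.single n z = z • Finsupp.single n (1 : ℤ) := by simp
      rw [this]
      exact zsmul_mem (hsing n) z
  exact ha

/-- The summand. -/
theorem exists_summand [Countable G]
    (h : ∀ F : Finset G, ∃ ψ : G →+ ℤ, ψ ≠ 0 ∧ ∀ x ∈ F, ψ x = 0) :
    ∃ B : AddSubgroup G, Nonempty (G ≃+ (ℕ →₀ ℤ) × B) := by
  obtain ⟨Ψ, hΨ⟩ := exists_surj h
  exact ⟨Ψ.ker, exists_equiv Ψ hΨ⟩

/-- Homomorphisms `θ r` and elements `x k` such that for every `r` eventually `θ r (x k) = 0`, but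
for all large `k` some `θ r (x k)` is not zero. -/
theorem exists_ann (θ : ℕ → G →+ ℤ) (x : ℕ → G)
    (h1 : ∀ r, ∃ k0, ∀ k, k0 ≤ k → θ r (x k) = 0)
    (h2 : ∃ k0, ∀ k, k0 ≤ k → ∃ r, θ r (x k) ≠ 0) (F : Finset G) :
    ∃ ψ : G →+ ℤ, ψ ≠ 0 ∧ ∀ y ∈ F, ψ y = 0 := by
  classical
  by_contra hcon
  push Not at hcon
  let S : Submodule ℤ (G →+ ℤ) := Submodule.span ℤ (Set.range θ)
  let res : S →ₗ[ℤ] (F → ℤ) :=
    { toFun := fun ψ y => (ψ : G →+ ℤ) y
      map_add' := fun a b => by ext y; simp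
      map_smul' := fun a b => by ext y; simp }
  have hinj : Function.Injective res := by
    rw [← LinearMap.ker_eq_bot, LinearMap.ker_eq_bot']
    intro ψ hψ
    by_contra hne
    have hne' : (ψ : G →+ ℤ) ≠ 0 := fun h => hne (Subtype.ext h)
    obtain ⟨y, hy, hy0⟩ := hcon ψ hne'
    exact hy0 (congrFun hψ ⟨y, hy⟩)
  have hfg : S.FG := Module.Finite.iff_fg.mp (Module.Finite.of_injective res hinj)
  obtain ⟨s', hs', hspan⟩ := (Submodule.fg_span_iff_fg_span_finset_subset _).mp hfg
  -- a threshold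
  have hthr : ∃ k0, ∀ φ ∈ s', ∀ k, k0 ≤ k → φ (x k) = 0 := by
    have : ∀ φ : G →+ ℤ, ∃ k0, φ ∈ s' → ∀ k, k0 ≤ k → φ (x k) = 0 := by
      intro φ
      by_cases hφ : φ ∈ s'
      · obtain ⟨r, rfl⟩ := hs' hφ
        obtain ⟨k0, hk0⟩ := h1 r
        exact ⟨k0, fun _ => hk0⟩
      · exact ⟨0, fun h => absurd h hφ⟩
    choose t ht using this
    exact ⟨s'.sup t, fun φ hφ k hk => ht φ hφ k ((Finset.le_sup hφ).trans hk)⟩
  obtain ⟨k0, hk0⟩ := hthr
  obtain ⟨k1, hk1⟩ := h2
  obtain ⟨r, hr⟩ := hk1 (max k0 k1) (le_max_right _ _)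
  apply hr
  have hmem : θ r ∈ S := Submodule.subset_span ⟨r, rfl⟩
  have hmem' : θ r ∈ Submodule.span ℤ (s' : Set (G →+ ℤ)) := by
    rw [← hspan]
    exact hmem
  let ev : (G →+ ℤ) →+ ℤ :=
    { toFun := fun φ => φ (x (max k0 k1)), map_zero' := rfl, map_add' := fun _ _ => rfl }
  have hle : Submodule.span ℤ (s' : Set (G →+ ℤ)) ≤ LinearMap.ker ev.toIntLinearMap := by
    rw [Submodule.span_le]
    intro φ hφ
    exact hk0 φ hφ _ (le_max_left _ _)
  exact hle hmem'

/-- Rational homomorphisms with values in the integers. -/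
theorem exists_int (φ : G →+ ℚ) (h : ∀ x, ∃ z : ℤ, φ x = z) :
    ∃ θ : G →+ ℤ, ∀ x, (θ x : ℚ) = φ x := by
  choose q hq using h
  refine ⟨{ toFun := q, map_zero' := ?_, map_add' := fun x y => ?_ }, fun x => (hq x).symm⟩
  · have := hq 0
    rw [map_zero] at this
    exact_mod_cast this.symm
  · have h1 := hq (x + y)
    rw [map_add, hq x, hq y] at h1
    exact_mod_cast h1.symm

end Pool.Agent.CQZ
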