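import Pool.Agent.CQ.TowFin
import Pool.Agent.CQZ.Summand

/-!
# A free direct summand of infinite rank of the concordance group modulo quasipositive knots
-/

set_option autoImplicit false

namespace Pool.Agent.CQZ

open Pool.Agent.CQ

/-- The goal. -/
def HasFreeSummand : Prop :=
  ∃ B : AddSubgroup (C ⧸ Q), Nonempty ((C ⧸ Q) ≃+ (ℕ →₀ ℤ) × B)

instance countable_braid (n : ℕ) : Countable (Braid n) :=
  (PresentedGroup.mk_surjective (artinRels n)).countable

instance countable_knot : Countable Knot := by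
  have h : Function.Injective (fun K : Knot => (⟨K.n, K.braid⟩ : Σ n, Braid n)) := by
    rintro ⟨n, β, h⟩ ⟨m, γ, h'⟩ hh
    simp only [Sigma.mk.injEq] at hh
    obtain ⟨rfl, hh⟩ := hh
    obtain rfl := eq_of_heq hh
    rfl
  exact h.countable

instance countable_free : Countable (FreeAbelianGroup Knot) := by
  have h : Function.Surjective (fun x : FreeGroup Knot =>
      (Additive.ofMul (Abelianization.of x) : FreeAbelianGroup Knot)) := by
    intro y
    obtain ⟨x, hx⟩ := QuotientGroup.mk_surjective (Additive.toMul y)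
    exact ⟨x, hx⟩
  exact h.countable

instance countable_CQ : Countable (C ⧸ Q) := by
  have h1 : Function.Surjective (QuotientAddGroup.mk : FreeAbelianGroup Knot → C) :=
    QuotientAddGroup.mk_surjective
  have h2 : Function.Surjective (QuotientAddGroup.mk : C → C ⧸ Q) :=
    QuotientAddGroup.mk_surjective
  have := h1.countable
  exact h2.countable

theorem int_of_cls (φ : C ⧸ Q →+ ℚ)
    (h : ∀ K : Knot, ∃ z : ℤ, φ (QuotientAddGroup.mk K.cls) = z) (x : C ⧸ Q) :
    ∃ z : ℤ, φ x = z := by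
  obtain ⟨y, rfl⟩ := QuotientAddGroup.mk_surjective x
  obtain ⟨y, rfl⟩ := QuotientAddGroup.mk_surjective y
  induction y using FreeAbelianGroup.induction_on with
  | zero => exact ⟨0, by simp⟩
  | of K => exact h K
  | neg K hK =>
    obtain ⟨z, hz⟩ := hK
    refine ⟨-z, ?_⟩
    rw [QuotientAddGroup.mk_neg, QuotientAddGroup.mk_neg, map_neg, hz]
    push_cast
    rfl
  | add a b ha hb =>
    obtain ⟨z, hz⟩ := ha
    obtain ⟨w, hw⟩ := hb
    refine ⟨z + w, ?_⟩
    rw [QuotientAddGroup.mk_add, QuotientAddGroup.mk_add, map_add, hz, hw]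
    push_cast
    rfl

theorem homCQ_cls {f g : ∀ n : ℕ, Word n → ℚ} (hf : WordInv f) (hg : WordInv g) (K : Knot) :
    homCQ hf hg (QuotientAddGroup.mk K.cls) = FB f K.braid - FB g K.braid := by
  rw [homCQ]
  erw [QuotientAddGroup.lift_mk]
  rw [AddMonoidHom.sub_apply, homC_cls, homC_cls]

/-- The reduction: a family of invariants and a sequence of knots. -/
theorem summand_of (f : ℕ → ∀ n : ℕ, Word n → ℚ) (hf : ∀ r, WordInv (f r))
    (hint : ∀ r, ∃ M : ℚ, M ≠ 0 ∧ ∀ n w, ∃ z : ℤ, M * (f r n w - f 0 n w) = z)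
    (N : ℕ → ℕ) (K : ∀ k, Word (N k)) (hK : ∀ k, IsKnot (toBraid (K k))) (c : ℕ → ℚ)
    (h1 : ∀ r, ∃ k0, ∀ k, k0 ≤ k → c k ≤ f r (N k) (K k) ∧ -c k ≤ f r (N k) (winv (K k)))
    (h2 : ∃ k0, ∀ k, k0 ≤ k → ∃ r, c k < f r (N k) (K k)) : HasFreeSummand := by
  have hval : ∀ r k, c k ≤ f r (N k) (K k) ∧ -c k ≤ f r (N k) (winv (K k)) →
      f r (N k) (K k) = c k := by
    intro r k h
    have := (hf r).mirror (N k) (K k) (hK k)
    linarith [h.1, h.2]
  obtain ⟨k2, hk2⟩ := h1 0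
  obtain ⟨k3, hk3⟩ := h2
  choose M hM0 hM using hint
  have hθ : ∀ r, ∃ θ : C ⧸ Q →+ ℤ, ∀ x, (θ x : ℚ) = M r * homCQ (hf r) (hf 0) x := by
    intro r
    refine exists_int ((AddMonoidHom.mulLeft (M r)).comp (homCQ (hf r) (hf 0))) (fun x => ?_)
    refine int_of_cls _ (fun J => ?_) x
    obtain ⟨z, hz⟩ := hM r J.n (toBraid_surj J.braid).choose
    refine ⟨z, ?_⟩
    rw [← hz]
    show M r * homCQ (hf r) (hf 0) (QuotientAddGroup.mk J.cls) = _
    rw [homCQ_cls]
    rfl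
  choose θ hθ using hθ
  refine exists_summand (exists_ann θ
    (fun k => QuotientAddGroup.mk (Knot.cls ⟨N k, toBraid (K k), hK k⟩)) ?_ ?_)
  · intro r
    obtain ⟨k1, hk1⟩ := h1 r
    refine ⟨max k1 k2, fun k hk => ?_⟩
    have h4 := hθ r (QuotientAddGroup.mk (Knot.cls ⟨N k, toBraid (K k), hK k⟩))
    rw [homCQ_cls] at h4
    simp only at h4
    rw [FB_toBraid (hf r), FB_toBraid (hf 0), hval r k (hk1 k (le_trans (le_max_left _ _) hk)),
      hval 0 k (hk2 k (le_trans (le_max_right _ _) hk)), sub_self, mul_zero] at h4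
    exact_mod_cast h4
  · refine ⟨max k2 k3, fun k hk => ?_⟩
    obtain ⟨r, hr⟩ := hk3 k (le_trans (le_max_right _ _) hk)
    refine ⟨r, fun h0 => ?_⟩
    have h4 := hθ r (QuotientAddGroup.mk (Knot.cls ⟨N k, toBraid (K k), hK k⟩))
    rw [h0, homCQ_cls] at h4
    simp only at h4
    rw [FB_toBraid (hf r), FB_toBraid (hf 0), hval 0 k (hk2 k (le_trans (le_max_left _ _) hk))]
      at h4
    rw [Int.cast_zero] at h4
    rcases mul_eq_zero.mp h4.symm with h5 | h5
    · exact hM0 r h5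
    · linarith

section dvr

variable {O : Type*} [CommRing O] [IsDomain O] [IsDiscreteValuationRing O]

omit [IsDomain O] [IsDiscreteValuationRing O] in
theorem nuI_int [IsDomain O] [IsDiscreteValuationRing O] (D D' : ℕ) (hD : 0 < D) (hD' : 0 < D')
    (I J : ∀ n : ℕ, Word n → Ideal O) :
    ∃ M : ℚ, M ≠ 0 ∧ ∀ n w, ∃ z : ℤ, M * (nuI D I n w - nuI D' J n w) = z := by
  have h1 : (D : ℚ) ≠ 0 := by exact_mod_cast hD.ne'
  have h2 : (D' : ℚ) ≠ 0 := by exact_mod_cast hD'.ne'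
  refine ⟨(D : ℚ) * D', mul_ne_zero h1 h2, fun n w => ?_⟩
  refine ⟨(D : ℤ) * ordI (J n w) - (D' : ℤ) * ordI (I n w), ?_⟩
  simp only [nuI]
  push_cast
  field_simp
  ring

/-- The final reduction with ideals: `K k` is a braid on `N k + 1` strands. -/
theorem summand_of_ideals {ϖ : O} (hϖ : Irreducible ϖ) (D : ℕ → ℕ) (hD : ∀ r, 0 < D r)
    (τ : ℕ → O) (hτ : ∀ r, Associated (τ r) (ϖ ^ D r))
    (I : ℕ → ∀ n : ℕ, Word n → Ideal O) (hI : ∀ r, IdealInv (τ r) (I r))
    (N : ℕ → ℕ) (K : ∀ k, Word (N k + 1)) (hK : ∀ k, IsKnot (toBraid (K k)))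
    (h1 : ∀ r, ∃ k0, ∀ k, k0 ≤ k →
      τ r ∈ I r (N k + 1) (K k) ∧ τ r ^ (N k) ∈ I r (N k + 1) (winv (K k)))
    (h2 : ∃ k0, ∀ k, k0 ≤ k → ∃ r, ∃ x ∈ I r (N k + 1) (K k), ¬ τ r ∣ x) : HasFreeSummand := by
  have hτ0 : ∀ r, τ r ≠ 0 := fun r h0 => by
    have h3 := hτ r
    rw [h0] at h3
    exact pow_ne_zero (D r) hϖ.ne_zero ((associated_zero_iff_eq_zero _).mp h3.symm)
  have hne := fun r => (hI r).ne_bot (hτ0 r)
  have hD' : ∀ r, (0 : ℚ) < D r := fun r => by exact_mod_cast hD r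
  have hassoc : ∀ {x y : O} {J : Ideal O}, Associated x y → x ∈ J → y ∈ J := by
    intro x y J hxy hx
    obtain ⟨u, rfl⟩ := hxy
    exact J.mul_mem_right _ hx
  refine summand_of (fun r => nuI (D r) (I r))
    (fun r => wordInv_of_ideal hϖ (hD r) (hτ r) (hI r))
    (fun r => nuI_int (D r) (D 0) (hD r) (hD 0) (I r) (I 0)) (fun k => N k + 1) K hK
    (fun k => ((writhe (K k) : ℚ) + (N k + 1 : ℕ)) / 2 - 1) ?_ ?_
  · intro r
    obtain ⟨k0, hk0⟩ := h1 r
    refine ⟨k0, fun k hk => ?_⟩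
    obtain ⟨h3, h4⟩ := hk0 k hk
    have h5 := hassoc (hτ r) h3
    rw [pow_mem_iff hϖ (hne r _ _)] at h5
    have h6 : τ r ^ N k ∈ I r (N k + 1) (winv (K k)) := h4
    have h7 : ϖ ^ (D r * N k) ∈ I r (N k + 1) (winv (K k)) := by
      refine hassoc ?_ h6
      rw [pow_mul]
      exact (hτ r).pow_pow
    rw [pow_mem_iff hϖ (hne r _ _)] at h7
    have h8 : (ordI (I r (N k + 1) (K k)) : ℚ) / D r ≤ 1 := by
      rw [div_le_one (hD' r)]
      exact_mod_cast h5
    have h9 : (ordI (I r (N k + 1) (winv (K k))) : ℚ) / D r ≤ N k := by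
      rw [div_le_iff₀ (hD' r)]
      have : (ordI (I r (N k + 1) (winv (K k))) : ℚ) ≤ (D r * N k : ℕ) := by exact_mod_cast h7
      push_cast at this
      linarith
    constructor
    · simp only [nuI]
      linarith
    · simp only [nuI]
      rw [writhe_winv]
      push_cast
      linarith
  · obtain ⟨k0, hk0⟩ := h2
    refine ⟨k0, fun k hk => ?_⟩
    obtain ⟨r, x, hx, hdvd⟩ := hk0 k hk
    refine ⟨r, ?_⟩
    have h3 : ordI (I r (N k + 1) (K k)) < D r := by
      by_contra h4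
      rw [not_lt] at h4
      rw [mem_iff_ordI hϖ (hne r _ _)] at hx
      exact hdvd (((hτ r).dvd.trans (pow_dvd_pow ϖ h4)).trans hx)
    have h5 : (ordI (I r (N k + 1) (K k)) : ℚ) / D r < 1 := by
      rw [div_lt_one (hD' r)]
      exact_mod_cast h3
    simp only [nuI]
    linarith

end dvr

/-- The reduction for the theories over `F₂⟦t⟧`: `k = j + 1`. -/
theorem summand_of_pot (I : ℕ → ∀ n : ℕ, Word n → Ideal O2)
    (hI : ∀ r, IdealInv (pot r).ta (I r))
    (h1 : ∀ r j, (pot r).ka ^ (j + 1) ∈ I r (j + 2) (testWord j))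
    (h2 : ∀ r j, (pot r).ta ∈ I r (j + 2) (testWord j))
    (h3 : ∀ r j, (pot r).ta ∣ (pot r).ka ^ (j + 1) →
      (pot r).ta ^ (j + 1) ∈ I r (j + 2) (winv (testWord j))) : HasFreeSummand := by
  refine summand_of_ideals (O := O2) irr_X (fun r => r + 3) (fun r => by omega)
    (fun r => (pot r).ta) (fun r => by rw [pot_ta]) I hI (fun j => j + 1) testWord
    isKnot_testWord ?_ ?_
  · intro r
    refine ⟨r + 3, fun j hj => ⟨h2 r j, h3 r j ?_⟩⟩
    rw [ta_dvd_ka_pow_iff]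
    omega
  · refine ⟨0, fun j _ => ⟨j, (pot j).ka ^ (j + 1), h1 j j, ?_⟩⟩
    rw [ta_dvd_ka_pow_iff]
    omega

theorem summand_of_blocks (hB : ∀ r : ℕ, BlockOut (pot r))
    (h1 : ∀ r j, (pot r).ka ^ (j + 1) ∈ _root_.CQ.IdW (pot r) (j + 3) (nw (testWord j)) 0)
    (h2 : ∀ r j, (pot r).ta ∈ _root_.CQ.IdW (pot r) (j + 3) (nw (testWord j)) 0)
    (h3 : ∀ r j, (pot r).ta ∣ (pot r).ka ^ (j + 1) →
      (pot r).ta ^ (j + 1) ∈ _root_.CQ.IdW (pot r) (j + 3) (ninv (nw (testWord j))) 0) :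
    HasFreeSummand :=
  summand_of_pot (fun r n w => _root_.CQ.IdW (pot r) (n + 1) (nw w) 0)
    (fun r => (hB r).idealInv) h1 h2 (fun r j hd => by
      rw [nw_winv]
      exact h3 r j hd)

/-- The quotient of the knot concordance group by the subgroup generated by the quasipositive knots
has a free direct summand of infinite rank. -/
theorem hasFreeSummand : HasFreeSummand :=
  summand_of_blocks (fun r => _root_.CQ.K.blockOut (pot r))
    (fun r j => tow1 (pot r) (fun _ _ _ _ h => h.step)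
      (fun j => _root_.CQ.INI.initNeg (pot r) j) j)
    (fun r j => tow2 (pot r) j)
    (fun r j hd => tow3 (pot r) (fun _ _ _ _ h => h.step)
      (fun j h => _root_.CQ.IP.initPos (pot r) j h) j hd)

end Pool.Agent.CQZ
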